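import Mathlib
import Pool.Agent.R603.PosF.Join

/-!
In ZFC there is a non-meager filter `F` on `ω` such that the product of `F` with the space of its
positive sets is not homeomorphic to the space of its positive sets.

The filter is the join of two ultrafilters `U`, `V` on the even and the odd numbers, so that its
positive sets are the sets whose even part is in `U` or whose odd part is in `V`. A homeomorphism
is determined by its values on a dense sequence; the continuum many possible codes are killed one
by one in a Kunen-style transfinite construction of `U` and `V` along an independent family.
-/

namespace Pool.Agent.Results.MP_ba1c1e_lc.NotHomeomorphic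

open Pool.Agent.R603.PosF

/-- There is a non-meager filter `F` such that `F × F⁺` is not homeomorphic to `F⁺`. -/
theorem result : ∃ F : Filter ℕ, IsFilterOnOmega F ∧ NonMeager F ∧
    IsEmpty (carrier F × pos F ≃ₜ pos F) :=
  exists_product

end Pool.Agent.Results.MP_ba1c1e_lc.NotHomeomorphic
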